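import Pool.Agent.Lib.MP_dac83a.Back

set_option autoImplicit false

namespace Pool.Agent.Results.MP_dac83a_an.NodalSegment

/-- The Euclidean plane. -/
abbrev Plane : Type := EuclideanSpace ℝ (Fin 2)

/-- The function `u` (smooth in `Ω`) lies in `H¹₀(Ω)`: it is the limit, in the norm of `H¹(Ω)`,
of smooth functions with compact support in `Ω`. -/
def InH10 (Ω : Set Plane) (u : Plane → ℝ) : Prop :=
  ∃ φ : ℕ → Plane → ℝ,
    (∀ n, ContDiff ℝ ((⊤ : ℕ∞) : WithTop ℕ∞) (φ n) ∧ HasCompactSupport (φ n) ∧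
      tsupport (φ n) ⊆ Ω ∧
      MeasureTheory.IntegrableOn
        (fun x => (φ n x - u x) ^ 2 + ‖fderiv ℝ (φ n) x - fderiv ℝ u x‖ ^ 2) Ω) ∧
    Filter.Tendsto
      (fun n => ∫ x in Ω, ((φ n x - u x) ^ 2 + ‖fderiv ℝ (φ n) x - fderiv ℝ u x‖ ^ 2))
      Filter.atTop (nhds 0)

/-- A Dirichlet eigenfunction of `Ω` with eigenvalue `lam`: smooth in `Ω`, not identically zero
there, `-Δu = lam u` in `Ω`, and `u = 0` on the boundary in the sense of `H¹₀(Ω)`. -/
structure IsEigenfunction (Ω : Set Plane) (lam : ℝ) (u : Plane → ℝ) : Prop where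
  smooth : ContDiffOn ℝ ((⊤ : ℕ∞) : WithTop ℕ∞) u Ω
  nonzero : ∃ x ∈ Ω, u x ≠ 0
  equation : ∀ x ∈ Ω,
    -(∑ i : Fin 2, iteratedFDeriv ℝ 2 u x (fun _ => EuclideanSpace.single i (1 : ℝ))) = lam * u x
  boundary : InH10 Ω u

/-- Linear independence of two functions on `Ω`. -/
def IndepOn (Ω : Set Plane) (u v : Plane → ℝ) : Prop :=
  ∀ s t : ℝ, (∀ x ∈ Ω, s * u x + t * v x = 0) → s = 0 ∧ t = 0

/-- `lam` is the second entry of the list of Dirichlet eigenvalues of `Ω`, listed in increasing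
order with multiplicity: at least two independent eigenfunctions belong to eigenvalues `≤ lam`,
and no two independent ones to eigenvalues `< lam`. -/
structure IsSecondEigenvalue (Ω : Set Plane) (lam : ℝ) : Prop where
  two_up_to : ∃ (a b : ℝ) (u v : Plane → ℝ), a ≤ lam ∧ b ≤ lam ∧
    IsEigenfunction Ω a u ∧ IsEigenfunction Ω b v ∧ IndepOn Ω u v
  one_below : ∀ (a b : ℝ) (u v : Plane → ℝ), a < lam → b < lam →
    IsEigenfunction Ω a u → IsEigenfunction Ω b v → ¬ IndepOn Ω u v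

open Pool.Agent.Lib.MP_dac83a in
theorem eigenfunction_of {lam : ℝ} {w : P → ℝ} (hw : Eig Om lam w) (hne : ∃ z ∈ Om, w z ≠ 0) :
    IsEigenfunction (ee ⁻¹' Om) lam (w ∘ ee) := by
  obtain ⟨z0, hz0, hz0'⟩ := hne
  refine ⟨hw.smooth.comp ee.contDiff.contDiffOn (fun x hx => hx),
    ⟨ee.symm z0, by simpa using hz0, by simpa using hz0'⟩, ?_, approx_transfer hw⟩
  intro x hx
  rw [lap_transfer isOpen_Om (hw.smooth.of_le two_le_inf) hx, hw.eq _ hx]
  simp only [Function.comp_apply]
  ring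

open Pool.Agent.Lib.MP_dac83a in
theorem second_eigenvalue : IsSecondEigenvalue (ee ⁻¹' Om) muO := by
  constructor
  · obtain ⟨u, hu, hodd, z, hz, hne⟩ := ground
    refine ⟨muO, muO, u ∘ ee, (fun z => u (rot z)) ∘ ee, le_rfl, le_rfl,
      eigenfunction_of hu ⟨z, hz, hne⟩, eigenfunction_of (hu.rot isOpen_Om Om_rot) ?_, ?_⟩
    · refine ⟨rot z, (Om_rot z).2 hz, ?_⟩
      rw [rot_rot, hodd]
      exact neg_ne_zero.2 hne
    · intro s t h
      refine ground_indep hodd hz hne fun w hw => ?_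
      have := h (ee.symm w) (by simpa using hw)
      simpa using this
  · intro a b u v ha hb hu hv hind
    obtain ⟨s, t, hst, h0⟩ := at_most_one ha hb
      (eig_of_E2 hu.smooth hu.equation hu.boundary) (eig_of_E2 hv.smooth hv.equation hv.boundary)
    obtain ⟨h1, h2⟩ := hind s t fun x hx => by
      have := h0 (ee x) hx
      simpa using this
    rcases hst with h | h
    · exact h h1
    · exact h h2

/-- Payne's nodal line conjecture fails for simply connected plane domains: for some bounded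
simply connected open set and some second Dirichlet eigenfunction, the closure of the nodal
line contains a whole nondegenerate segment of the boundary. -/
theorem result : ∃ (Ω : Set Plane) (lam : ℝ) (u : Plane → ℝ),
    IsOpen Ω ∧ Bornology.IsBounded Ω ∧ SimplyConnectedSpace Ω ∧
    IsSecondEigenvalue Ω lam ∧ IsEigenfunction Ω lam u ∧
    ∃ p q : Plane, p ≠ q ∧ segment ℝ p q ⊆ closure {x | x ∈ Ω ∧ u x = 0} ∩ frontier Ω := by
  obtain ⟨u, hu, hodd, hne⟩ := Pool.Agent.Lib.MP_dac83a.ground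
  obtain ⟨w, hw, hwne, hseg⟩ := Pool.Agent.Lib.MP_dac83a.nodal_segment
    Pool.Agent.Lib.MP_dac83a.muO_nonneg Pool.Agent.Lib.MP_dac83a.muO_le hu hodd hne
  exact ⟨_, _, _,
    Pool.Agent.Lib.MP_dac83a.isOpen_Om.preimage Pool.Agent.Lib.MP_dac83a.ee.continuous,
    Pool.Agent.Lib.MP_dac83a.bounded_transfer, Pool.Agent.Lib.MP_dac83a.simply_transfer,
    second_eigenvalue, eigenfunction_of hw hwne,
    Pool.Agent.Lib.MP_dac83a.segment_transfer hseg⟩

end Pool.Agent.Results.MP_dac83a_an.NodalSegment
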